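import Pool.Agent.ARC.StmtsP

/-!
# Squad ARC, row TGW: the rows of the interpolation matrix at another embedding, even columns
-/

set_option autoImplicit false

namespace Pool.Agent.ARC.H58

open scoped BigOperators
open Pool.Agent.THS Pool.Agent.ZES Pool.Agent.ARC
open Pool.Agent.SZG (Ch Idx gam QS WX Wf Xf Mp FF Bx Row lft Zz IM)

section yq

variable {g : ℕ} (τ : Matrix (Fin g) (Fin g) ℂ)

theorem Yq_eq (y : Fin g → ℝ) : Yq τ y = ∑ i, y i * Yv τ y i := by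
  unfold Yq Yv
  refine Finset.sum_congr rfl fun i _ => ?_
  rw [Finset.mul_sum]
  exact Finset.sum_congr rfl fun j _ => by ring

theorem Yv_symm (hτ : τ.transpose = τ) (y y' : Fin g → ℝ) :
    ∑ i, y i * Yv τ y' i = ∑ i, y' i * Yv τ y i := by
  unfold Yv
  simp only [Finset.mul_sum]
  rw [Finset.sum_comm]
  refine Finset.sum_congr rfl fun i _ => Finset.sum_congr rfl fun j _ => ?_
  have h : τ j i = τ i j := by
    have h1 := congrFun (congrFun hτ i) j
    rwa [Matrix.transpose_apply] at h1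
  rw [h]
  ring

theorem Yq_congr (hτ : τ.transpose = τ) {y y' : Fin g → ℝ} (h : ∀ r, Yv τ y r = Yv τ y' r) :
    Yq τ y = Yq τ y' := by
  rw [Yq_eq, Yq_eq]
  calc ∑ i, y i * Yv τ y i = ∑ i, y i * Yv τ y' i :=
        Finset.sum_congr rfl fun i _ => by rw [h i]
    _ = ∑ i, y' i * Yv τ y i := Yv_symm τ hτ y y'
    _ = ∑ i, y' i * Yv τ y' i := Finset.sum_congr rfl fun i _ => by rw [h i]

theorem Yv_smul (c : ℝ) (y : Fin g → ℝ) (r : Fin g) :
    Yv τ (fun i => c * y i) r = c * Yv τ y r := by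
  unfold Yv
  rw [Finset.mul_sum]
  exact Finset.sum_congr rfl fun j _ => by ring

theorem Yq_smul (c : ℝ) (y : Fin g → ℝ) : Yq τ (fun i => c * y i) = c ^ 2 * Yq τ y := by
  rw [Yq_eq, Yq_eq, Finset.mul_sum]
  refine Finset.sum_congr rfl fun i _ => ?_
  rw [Yv_smul]
  ring

theorem Yv_add (y y' : Fin g → ℝ) (r : Fin g) :
    Yv τ (fun i => y i + y' i) r = Yv τ y r + Yv τ y' r := by
  unfold Yv
  rw [← Finset.sum_add_distrib]
  exact Finset.sum_congr rfl fun j _ => by ring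

theorem Yq_add (hτ : τ.transpose = τ) (y y' : Fin g → ℝ) :
    Yq τ (fun i => y i + y' i) = Yq τ y + 2 * (∑ i, y' i * Yv τ y i) + Yq τ y' := by
  rw [Yq_eq, Yq_eq, Yq_eq]
  have h : ∀ i, (y i + y' i) * Yv τ (fun i => y i + y' i) i =
      y i * Yv τ y i + y' i * Yv τ y i + y i * Yv τ y' i + y' i * Yv τ y' i := fun i => by
    rw [Yv_add]
    ring
  rw [Finset.sum_congr rfl fun i _ => h i, Finset.sum_add_distrib, Finset.sum_add_distrib,
    Finset.sum_add_distrib, Yv_symm τ hτ y y']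
  ring

/-- imaginary part of an integral period -/
theorem im_per (P Q : Fin g → ℤ) (r : Fin g) :
    ((P r : ℂ) + ∑ j, τ r j * (Q j : ℂ)).im = Yv τ (fun j => (Q j : ℝ)) r := by
  rw [Complex.add_im, Complex.intCast_im, zero_add, Complex.im_sum]
  unfold Yv
  refine Finset.sum_congr rfl fun j _ => ?_
  rw [Complex.mul_im, Complex.intCast_re, Complex.intCast_im, mul_zero, zero_add]

theorem im_dot (q : Fin g → ℤ) (w : Fin g → ℂ) :
    (∑ r, (q r : ℂ) * w r).im = ∑ r, (q r : ℝ) * (w r).im := by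
  rw [Complex.im_sum]
  refine Finset.sum_congr rfl fun j _ => ?_
  rw [Complex.mul_im, Complex.intCast_re, Complex.intCast_im, zero_mul, add_zero]

end yq

theorem smul_idx {g : ℕ} (l : ℕ) (P Q : Fin g → ℤ) :
    l • ((0, P, Q) : Idx g) = (0, fun i => (l : ℤ) * P i, fun i => (l : ℤ) * Q i) := by
  refine Prod.ext ?_ (Prod.ext ?_ ?_)
  · show l • (0 : ℤ) = 0
    exact smul_zero _
  · funext i
    show l • P i = _
    rw [nsmul_eq_mul]
  · funext i
    show l • Q i = _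
    rw [nsmul_eq_mul]

/-- division by two modulo an odd number -/
theorem half_mod {l : ℕ} (hl : Odd l) (P : ℤ) :
    ∃ p : Fin l, ∃ P' : ℤ, P = 2 * ((p.val : ℕ) : ℤ) + l * P' := by
  obtain ⟨h, rfl⟩ := hl
  have hpos : (0 : ℤ) < ((2 * h + 1 : ℕ) : ℤ) := by positivity
  have h0 := Int.emod_nonneg (P * (h + 1)) hpos.ne'
  have h1 := Int.emod_lt_of_pos (P * (h + 1)) hpos
  have h2 := Int.mul_ediv_add_emod (P * (h + 1)) ((2 * h + 1 : ℕ) : ℤ)
  refine ⟨⟨((P * (h + 1)) % ((2 * h + 1 : ℕ) : ℤ)).toNat, by omega⟩,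
    2 * (P * (h + 1) / ((2 * h + 1 : ℕ) : ℤ)) - P, ?_⟩
  show P = 2 * (((P * (h + 1)) % ((2 * h + 1 : ℕ) : ℤ)).toNat : ℤ) + _
  rw [Int.toNat_of_nonneg h0]
  push_cast at h2 ⊢
  linear_combination (-2 : ℤ) * h2

theorem tgw (hC : TgcStmt) (hT : TouStatement) (_hQ : Pool.Agent.SZG.QsaStmt) : TgwStmt := by
  intro g K _ l E L0 c e s T x' hl hQS hL x hx ψ v hv τ γ hAD
  obtain ⟨ρ0, B, ε, hρ0, hBs, hBa, hε2, hεp, hε0, hTi, hm⟩ :=
    hC g K E L0 c e s T x' hQS x hx ψ τ γ hAD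
  obtain ⟨-, -, -, hper, -, -⟩ := hT g τ hAD.sg
  have hsymm : τ.transpose = τ := hAD.sg.1
  have hlpos : 0 < l := hl.pos
  have hlC : (l : ℂ) ≠ 0 := by exact_mod_cast hlpos.ne'
  have hlR : (l : ℝ) ≠ 0 := by exact_mod_cast hlpos.ne'
  -- additivity
  have hγ0 : ∀ r, γ 0 r = 0 := fun r => by
    have h := hAD.add 0 0 r
    rw [add_zero] at h
    linear_combination -h
  have hγn : ∀ (n : ℕ) i r, γ (n • i) r = n * γ i r := by
    intro n i r
    induction n with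
    | zero => rw [zero_smul, hγ0]; push_cast; ring
    | succ n ih => rw [succ_nsmul, hAD.add, ih]; push_cast; ring
  have hB0 : ∀ k, B 0 k = 0 := fun k => by
    have h := hBa 0 0 k
    rw [add_zero] at h
    linear_combination -h
  have hBn : ∀ (n : ℕ) i k, B (n • i) k = n * B i k := by
    intro n i k
    induction n with
    | zero => rw [zero_smul, hB0]; push_cast; ring
    | succ n ih => rw [succ_nsmul, hBa, ih]; push_cast; ring
  have hBn' : ∀ (n : ℕ) i k, B k (n • i) = n * B k i := fun n i k => by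
    rw [hBs k, hBn, hBs i]
  have hBa' : ∀ i j k, B k (i + j) = B k i + B k j := fun i j k => by
    rw [hBs k, hBa, hBs i, hBs j]
  have hε1 : ∀ i, ‖ε i‖ = 1 := fun i => by
    have h1 := congrArg (‖·‖) (hε2 i)
    simp only [norm_pow, norm_one] at h1
    exact (pow_eq_one_iff_of_nonneg (norm_nonneg _) two_ne_zero).1 h1
  -- the weights
  have hEpos : 0 < E := hQS.hE
  have hER : (E : ℝ) ≠ 0 := by exact_mod_cast hEpos.ne'
  have hW : ∀ (i : Idx g) (y : Fin g → ℝ), (∀ r, (γ i r).im = Yv τ y r) →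
      Wf v E e i = Real.exp ((B i i).re + 8 * Real.pi * Yq τ y) := by
    intro i y hy
    obtain ⟨⟨P, Q, hPQ0⟩, hall⟩ := hm (E • i) (hQS.mem i)
    have hPQ : ∀ r, 2 * γ (E • i) r = (P r : ℂ) + ∑ j, τ r j * (Q j : ℂ) := hPQ0
    have h1 := hall P Q hPQ i
    have hQy : ∀ r, Yv τ (fun j => (Q j : ℝ)) r = Yv τ (fun j => (2 * (E : ℝ)) * y j) r := by
      intro r
      rw [Yv_smul, ← hy r, ← im_per τ P Q r, ← hPQ r, hγn, Complex.mul_im, Complex.mul_im]
      simp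
      ring
    have h2 : ∑ r, (Q r : ℝ) * (γ i r).im = 2 * (E : ℝ) * Yq τ y := by
      have h3 : ∑ r, (Q r : ℝ) * (γ i r).im = ∑ r, (Q r : ℝ) * Yv τ y r :=
        Finset.sum_congr rfl fun r _ => by rw [hy r]
      rw [h3, Yv_symm τ hsymm (fun r => (Q r : ℝ)) y]
      have h4 : ∑ r, y r * Yv τ (fun j => (Q j : ℝ)) r =
          ∑ r, y r * (2 * (E : ℝ) * Yv τ y r) :=
        Finset.sum_congr rfl fun r _ => by rw [hQy r, Yv_smul]
      rw [h4, Yq_eq, Finset.mul_sum]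
      exact Finset.sum_congr rfl fun r _ => by ring
    have h3 : v (e (E • i) i) = Real.exp (2 * (E : ℝ) * ((B i i).re + 8 * Real.pi * Yq τ y)) := by
      rw [hv, h1, norm_mul, norm_mul, norm_mul, hε1, hε1, hε1, one_mul, one_mul, one_mul,
        Complex.norm_exp]
      congr 1
      rw [Complex.sub_re, hBn']
      have h5 : (8 * (Real.pi : ℂ) * Complex.I * ∑ r, (Q r : ℂ) * γ i r).re =
          -(8 * Real.pi * (∑ r, (Q r : ℂ) * γ i r).im) := by
        simp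
      rw [h5, im_dot, h2]
      have h6 : (2 * ((E : ℂ) * B i i)).re = 2 * (E : ℝ) * (B i i).re := by
        simp
        ring
      rw [h6]
      ring
    unfold Wf
    rw [h3, Real.log_exp]
    congr 1
    field_simp
  -- the labels
  choose hp hP' hhp using fun P : ℤ => half_mod hl P
  have hmem : ∀ b : Bx g l, l • (lft b) ∈ L0 := fun b => by
    unfold lft
    rw [smul_idx]
    exact hL _ _
  choose P hP using fun b : Bx g l => (hm (l • lft b) (hmem b)).1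
  choose Q hPQ0 using hP
  have hPQ : ∀ b r, 2 * γ (l • lft b) r = (P b r : ℂ) + ∑ j, τ r j * (Q b j : ℂ) := hPQ0
  let A : Bx g l → Bx g l := fun b => (fun r => hp (P b r), fun r => hp (Q b r))
  let p1 : Bx g l → Fin g → ℤ := fun b => (lft (A b)).2.1
  let q1 : Bx g l → Fin g → ℤ := fun b => (lft (A b)).2.2
  let P1 : Bx g l → Fin g → ℤ := fun b r => hP' (P b r)
  let Q1 : Bx g l → Fin g → ℤ := fun b r => hP' (Q b r)
  have hPe : ∀ b r, P b r = 2 * p1 b r + l * P1 b r := fun b r => hhp (P b r)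
  have hQe : ∀ b r, Q b r = 2 * q1 b r + l * Q1 b r := fun b r => hhp (Q b r)
  -- the period relation divided by l
  have hγb : ∀ b r, 2 * γ (lft b) r = 2 * ((p1 b r : ℂ) + ∑ j, τ r j * (q1 b j : ℂ)) / (l : ℂ)
      + ((P1 b r : ℂ) + ∑ j, τ r j * (Q1 b j : ℂ)) := by
    intro b r
    have h1 := hPQ b r
    rw [hγn, hPe] at h1
    have h2 : ∑ j, τ r j * ((Q b j : ℤ) : ℂ) =
        2 * (∑ j, τ r j * (q1 b j : ℂ)) + (l : ℂ) * ∑ j, τ r j * (Q1 b j : ℂ) := by
      rw [Finset.mul_sum, Finset.mul_sum, ← Finset.sum_add_distrib]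
      refine Finset.sum_congr rfl fun j _ => ?_
      rw [hQe]
      push_cast
      ring
    rw [h2] at h1
    push_cast at h1
    have h3 : (l : ℂ) * (2 * γ (lft b) r) = (l : ℂ) * (2 * ((p1 b r : ℂ) +
        ∑ j, τ r j * (q1 b j : ℂ)) / (l : ℂ) + ((P1 b r : ℂ) + ∑ j, τ r j * (Q1 b j : ℂ))) := by
      rw [mul_add, mul_div_cancel₀ _ hlC]
      linear_combination h1
    exact mul_left_cancel₀ hlC h3
  let z : Fin g → ℂ := γ (Zz g)
  let ν : ℕ → ℂ := fun m => ρ0 * Complex.exp ((l : ℂ) ^ 2 * (2 * (m : ℂ)) ^ 2 * B (Zz g) (Zz g))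
  let S3 : Bx g l → ℂ := fun b => ∑ i, ∑ j, (Q1 b i : ℂ) * τ i j * (Q1 b j : ℂ)
  let S4 : Bx g l → ℂ := fun b => ∑ r, (Q1 b r : ℂ) * ((p1 b r : ℂ) + ∑ j, τ r j * (q1 b j : ℂ))
  let η : Bx g l → ℂ := fun b => ε (lft b) * Complex.exp (B (lft b) (lft b)
    - 2 * Real.pi * Complex.I * S3 b - 8 * Real.pi * Complex.I * S4 b / (l : ℂ))
  refine ⟨ν, η, A, ?_, ?_, ?_⟩
  · intro b m a
    set i := lft b with hi
    have hjj : (l * (2 * m)) • Zz g = (l * m) • Zz g + (l * m) • Zz g := by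
      rw [← add_smul]
      congr 1
      ring
    have hε' : ε ((l * (2 * m)) • Zz g + i) = ε i := by
      rw [hjj, add_comm]
      exact hεp _ _
    -- the factor of automorphy
    have he := (hm (l • i) (hmem b)).2 (P b) (Q b) (hPQ b) (Zz g)
    have he2 : (ψ (e (l • i) (Zz g))) ^ (2 * m) = Complex.exp ((2 * m : ℕ) *
        (2 * ((l : ℂ) * B (Zz g) i) - 8 * Real.pi * Complex.I * ∑ r, (Q b r : ℂ) * z r)) := by
      rw [he, mul_pow, hBn', ← Complex.exp_nat_mul]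
      have h1 : (ε (Zz g + l • i) * ε (Zz g) * ε (l • i)) ^ (2 * m) = 1 := by
        have h2 : (ε (Zz g + l • i) * ε (Zz g) * ε (l • i)) ^ 2 = 1 := by
          rw [mul_pow, mul_pow, hε2, hε2, hε2]
          ring
        rw [pow_mul, h2, one_pow]
      rw [h1, one_mul]
    have hMp : ψ (Mp l e T (Zz g) i (2 * m) a) = ((ψ (e (l • i) (Zz g))) ^ (2 * m))⁻¹ *
        ψ (T ((l * (2 * m)) • Zz g + i) a) := by
      unfold Mp
      rw [map_mul, map_pow, map_inv₀, inv_pow]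
    rw [hMp, he2, hTi, hε', ← Complex.exp_neg]
    -- the value of theta
    have harg : (fun r => 2 * γ ((l * (2 * m)) • Zz g + i) r) = fun r =>
        (2 * (l : ℂ) * (((2 * m : ℕ) : ℂ) * z r) +
          2 * ((p1 b r : ℂ) + ∑ j, τ r j * (q1 b j : ℂ)) / (l : ℂ)) +
        ((P1 b r : ℂ) + ∑ j, τ r j * (Q1 b j : ℂ)) := by
      funext r
      rw [hAD.add, hγn]
      have h1 := hγb b r
      push_cast
      linear_combination h1
    rw [harg, hper a _ (P1 b) (Q1 b)]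
    have hBB : B ((l * (2 * m)) • Zz g + i) ((l * (2 * m)) • Zz g + i) =
        (l : ℂ) ^ 2 * (2 * (m : ℂ)) ^ 2 * B (Zz g) (Zz g) +
          2 * ((l : ℂ) * (2 * (m : ℂ))) * B (Zz g) i + B i i := by
      rw [hBa, hBa', hBa', hBn, hBn', hBn, hBn', hBs i (Zz g)]
      push_cast
      ring
    rw [hBB]
    have hs1 : ∑ r, (Q b r : ℂ) * z r = 2 * (∑ r, (q1 b r : ℂ) * z r) +
        (l : ℂ) * ∑ r, (Q1 b r : ℂ) * z r := by
      rw [Finset.mul_sum, Finset.mul_sum, ← Finset.sum_add_distrib]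
      refine Finset.sum_congr rfl fun r _ => ?_
      rw [hQe]
      push_cast
      ring
    have hs2 : ∑ r, (Q1 b r : ℂ) * (2 * (l : ℂ) * (((2 * m : ℕ) : ℂ) * z r) +
          2 * ((p1 b r : ℂ) + ∑ j, τ r j * (q1 b j : ℂ)) / (l : ℂ)) =
        2 * (l : ℂ) * (2 * (m : ℂ)) * (∑ r, (Q1 b r : ℂ) * z r) + 2 / (l : ℂ) * S4 b := by
      show _ = _ + 2 / (l : ℂ) * ∑ r, (Q1 b r : ℂ) * ((p1 b r : ℂ) + ∑ j, τ r j * (q1 b j : ℂ))
      rw [Finset.mul_sum, Finset.mul_sum, ← Finset.sum_add_distrib]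
      refine Finset.sum_congr rfl fun r _ => ?_
      push_cast
      ring
    have hs3 : ∑ r, (q1 b r : ℂ) * (((2 * m : ℕ) : ℂ) * z r) =
        2 * (m : ℂ) * ∑ r, (q1 b r : ℂ) * z r := by
      rw [Finset.mul_sum]
      refine Finset.sum_congr rfl fun r _ => ?_
      push_cast
      ring
    rw [hs1, hs2]
    show _ = ν m * η b * FF τ l (q := q1 b) (p := p1 b) a (fun r => ((2 * m : ℕ) : ℂ) * z r)
    unfold FF
    rw [hs3]
    show _ = (ρ0 * Complex.exp ((l : ℂ) ^ 2 * (2 * (m : ℂ)) ^ 2 * B (Zz g) (Zz g))) *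
      (ε i * Complex.exp (B i i - 2 * Real.pi * Complex.I * S3 b
        - 8 * Real.pi * Complex.I * S4 b / (l : ℂ))) * _
    generalize Thc τ a _ = th
    have hexp : Complex.exp (-(((2 * m : ℕ) : ℂ) * (2 * ((l : ℂ) * B (Zz g) i) -
          8 * Real.pi * Complex.I * (2 * (∑ r, (q1 b r : ℂ) * z r) +
            (l : ℂ) * ∑ r, (Q1 b r : ℂ) * z r)))) *
        Complex.exp ((l : ℂ) ^ 2 * (2 * (m : ℂ)) ^ 2 * B (Zz g) (Zz g) +
          2 * ((l : ℂ) * (2 * (m : ℂ))) * B (Zz g) i + B i i) *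
        Complex.exp (-(2 * Real.pi * Complex.I * S3 b) - 4 * Real.pi * Complex.I *
          (2 * (l : ℂ) * (2 * (m : ℂ)) * (∑ r, (Q1 b r : ℂ) * z r) + 2 / (l : ℂ) * S4 b)) =
        Complex.exp ((l : ℂ) ^ 2 * (2 * (m : ℂ)) ^ 2 * B (Zz g) (Zz g)) *
        Complex.exp (B i i - 2 * Real.pi * Complex.I * S3 b
          - 8 * Real.pi * Complex.I * S4 b / (l : ℂ)) *
        Complex.exp (16 * Real.pi * Complex.I * (2 * (m : ℂ) * ∑ r, (q1 b r : ℂ) * z r)) := by
      rw [← Complex.exp_add, ← Complex.exp_add, ← Complex.exp_add, ← Complex.exp_add]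
      congr 1
      push_cast
      ring
    calc _ = ρ0 * ε i * th * (Complex.exp (-(((2 * m : ℕ) : ℂ) * (2 * ((l : ℂ) * B (Zz g) i) -
          8 * Real.pi * Complex.I * (2 * (∑ r, (q1 b r : ℂ) * z r) +
            (l : ℂ) * ∑ r, (Q1 b r : ℂ) * z r)))) *
        Complex.exp ((l : ℂ) ^ 2 * (2 * (m : ℂ)) ^ 2 * B (Zz g) (Zz g) +
          2 * ((l : ℂ) * (2 * (m : ℂ))) * B (Zz g) i + B i i) *
        Complex.exp (-(2 * Real.pi * Complex.I * S3 b) - 4 * Real.pi * Complex.I *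
          (2 * (l : ℂ) * (2 * (m : ℂ)) * (∑ r, (Q1 b r : ℂ) * z r) + 2 / (l : ℂ) * S4 b))) := by
            ring
      _ = _ := by
            rw [hexp]
            ring
  · intro b
    set i := lft b with hi
    have hyb : ∀ r, (γ i r).im = Yv τ (fun j => (1 / (l : ℝ)) * (q1 b j : ℝ) +
        (1 / 2) * (Q1 b j : ℝ)) r := by
      intro r
      have h1 := congrArg Complex.im (hγb b r)
      have h2 : (2 * ((p1 b r : ℂ) + ∑ j, τ r j * (q1 b j : ℂ)) / (l : ℂ)).im =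
          2 / (l : ℝ) * Yv τ (fun j => (q1 b j : ℝ)) r := by
        have h3 : 2 * ((p1 b r : ℂ) + ∑ j, τ r j * (q1 b j : ℂ)) / (l : ℂ) =
            ((2 / (l : ℝ) : ℝ) : ℂ) * ((p1 b r : ℂ) + ∑ j, τ r j * (q1 b j : ℂ)) := by
          push_cast
          ring
        rw [h3, Complex.im_ofReal_mul, im_per]
      rw [Complex.add_im, h2, im_per] at h1
      have h4 : (2 * γ i r).im = 2 * (γ i r).im := by simp
      rw [h4] at h1
      rw [Yv_add, Yv_smul, Yv_smul]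
      have h5 : (γ i r).im = (2 * (γ i r).im) / 2 := by ring
      rw [h5, h1]
      ring
    rw [hW i _ hyb, Yq_add τ hsymm, Yq_smul, Yq_smul]
    have hS3 : (S3 b).im = Yq τ (fun j => (Q1 b j : ℝ)) := by
      show (∑ i, ∑ j, (Q1 b i : ℂ) * τ i j * (Q1 b j : ℂ)).im = _
      rw [Complex.im_sum, Yq_eq]
      refine Finset.sum_congr rfl fun r _ => ?_
      have h3 : ∑ j, (Q1 b r : ℂ) * τ r j * (Q1 b j : ℂ) =
          (Q1 b r : ℂ) * (((0 : ℤ) : ℂ) + ∑ j, τ r j * (Q1 b j : ℂ)) := by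
        rw [Int.cast_zero, zero_add, Finset.mul_sum]
        exact Finset.sum_congr rfl fun j _ => by ring
      rw [h3, Complex.mul_im, Complex.intCast_im, zero_mul, add_zero, Complex.intCast_re,
        im_per τ (fun _ => 0) (Q1 b) r]
    have hS4 : (S4 b).im = ∑ r, (Q1 b r : ℝ) * Yv τ (fun j => (q1 b j : ℝ)) r := by
      show (∑ r, (Q1 b r : ℂ) * ((p1 b r : ℂ) + ∑ j, τ r j * (q1 b j : ℂ))).im = _
      rw [im_dot]
      exact Finset.sum_congr rfl fun r _ => by rw [im_per]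
    have hη : ‖η b‖ = Real.exp ((B i i).re + 2 * Real.pi * (S3 b).im
        + 8 * Real.pi * (S4 b).im / (l : ℝ)) := by
      show ‖ε i * Complex.exp (B i i - 2 * Real.pi * Complex.I * S3 b
        - 8 * Real.pi * Complex.I * S4 b / (l : ℂ))‖ = _
      rw [norm_mul, hε1, one_mul, Complex.norm_exp]
      congr 1
      rw [Complex.sub_re, Complex.sub_re]
      have h3 : (2 * (Real.pi : ℂ) * Complex.I * S3 b).re = -(2 * Real.pi * (S3 b).im) := by
        simp
      have h4 : (8 * (Real.pi : ℂ) * Complex.I * S4 b / (l : ℂ)).re =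
          -(8 * Real.pi * (S4 b).im / (l : ℝ)) := by
        have h5 : 8 * (Real.pi : ℂ) * Complex.I * S4 b / (l : ℂ) =
            ((8 * Real.pi / (l : ℝ) : ℝ) : ℂ) * (Complex.I * S4 b) := by
          push_cast
          ring
        rw [h5, Complex.re_ofReal_mul]
        simp
        ring
      rw [h3, h4]
      ring
    rw [hη, ← Real.exp_add, hS3, hS4]
    congr 1
    have h6 : ∑ r, (1 / 2) * (Q1 b r : ℝ) * Yv τ (fun j => (1 / (l : ℝ)) * (q1 b j : ℝ)) r =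
        (1 / (2 * (l : ℝ))) * ∑ r, (Q1 b r : ℝ) * Yv τ (fun j => (q1 b j : ℝ)) r := by
      rw [Finset.mul_sum]
      refine Finset.sum_congr rfl fun r _ => ?_
      rw [Yv_smul]
      field_simp
    rw [h6]
    show _ = (B i i).re + 2 * Real.pi * Yq τ (fun j => (Q1 b j : ℝ)) + 8 * Real.pi *
      (∑ r, (Q1 b r : ℝ) * Yv τ (fun j => (q1 b j : ℝ)) r) / (l : ℝ) +
      8 * Real.pi * Yq τ (fun r => (q1 b r : ℝ)) / (l : ℝ) ^ 2
    field_simp
    ring
  · intro y hy m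
    have hyk : ∀ r, (γ ((l * (2 * m)) • Zz g) r).im =
        Yv τ (fun j => ((l : ℝ) * (2 * (m : ℝ))) * y j) r := by
      intro r
      rw [Yv_smul, ← hy r, hγn]
      have h1 : (((l * (2 * m) : ℕ) : ℂ) * γ (Zz g) r).im =
          ((l * (2 * m) : ℕ) : ℝ) * (γ (Zz g) r).im := by
        rw [Complex.mul_im, Complex.natCast_re, Complex.natCast_im, zero_mul, add_zero]
      rw [h1]
      push_cast
      ring
    rw [hW _ _ hyk, Yq_smul]
    have hnv : nv v (T 0) = ‖ρ0‖ * t0 τ := by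
      unfold nv t0
      rw [Real.mul_iSup_of_nonneg (norm_nonneg _)]
      congr 1
      funext c
      rw [hv, hTi, hε0, hB0, Complex.exp_zero, mul_one, mul_one, norm_mul]
      congr 3
      funext r
      rw [hγ0, mul_zero]
      rfl
    have hν : ‖ν m‖ = ‖ρ0‖ * Real.exp ((l : ℝ) ^ 2 * (2 * (m : ℝ)) ^ 2 *
        (B (Zz g) (Zz g)).re) := by
      show ‖ρ0 * Complex.exp ((l : ℂ) ^ 2 * (2 * (m : ℂ)) ^ 2 * B (Zz g) (Zz g))‖ = _
      rw [norm_mul, Complex.norm_exp]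
      congr 2
      have h5 : (l : ℂ) ^ 2 * (2 * (m : ℂ)) ^ 2 * B (Zz g) (Zz g) =
          (((l : ℝ) ^ 2 * (2 * (m : ℝ)) ^ 2 : ℝ) : ℂ) * B (Zz g) (Zz g) := by
        push_cast
        ring
      rw [h5, Complex.re_ofReal_mul]
    have hBk : (B ((l * (2 * m)) • Zz g) ((l * (2 * m)) • Zz g)).re =
        (l : ℝ) ^ 2 * (2 * (m : ℝ)) ^ 2 * (B (Zz g) (Zz g)).re := by
      rw [hBn, hBn']
      have h5 : ((l * (2 * m) : ℕ) : ℂ) * (((l * (2 * m) : ℕ) : ℂ) * B (Zz g) (Zz g)) =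
          (((l : ℝ) ^ 2 * (2 * (m : ℝ)) ^ 2 : ℝ) : ℂ) * B (Zz g) (Zz g) := by
        push_cast
        ring
      rw [h5, Complex.re_ofReal_mul]
    rw [hnv, hν, hBk, Real.exp_add]
    have h7 : 8 * Real.pi * (((l : ℝ) * (2 * (m : ℝ))) ^ 2 * Yq τ y) =
        8 * Real.pi * (l : ℝ) ^ 2 * ((2 * (m : ℝ)) ^ 2 * Yq τ y) := by ring
    rw [h7]
    ring

end Pool.Agent.ARC.H58
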